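import Pool.Agent.H28.RC.Targets3

/-!
# Module SEC: the second inequality
-/

set_option autoImplicit false

open NumberField Filter Topology

namespace Pool.Agent.H13.RC

open Pool.Agent.H28.RC

section

variable {F : Type} [Field F] [NumberField F]

lemma pc_le {m : Ideal (𝓞 F)} {ψ : Ideal (𝓞 F) → ℂ} (h : PC m ψ) (I : Ideal (𝓞 F)) :
    ‖ψ I‖ ≤ 1 := by
  by_cases h0 : I = ⊥
  · rw [h0, h.bot, norm_zero]
    exact zero_le_one
  · by_cases h1 : I ⊔ m = ⊤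
    · exact (h.norm I h0 h1).le
    · rw [h.zero I h1, norm_zero]
      exact zero_le_one

lemma PR_mono (hPSU : T_PSU) {w w' : Ideal (𝓞 F) → ℝ} {B B' : ℝ} (hw : ∀ P, |w P| ≤ B)
    (hw' : ∀ P, |w' P| ≤ B') (h : ∀ P, w P ≤ w' P) {s : ℝ} (hs : 1 < s) : PR w s ≤ PR w' s := by
  unfold PR
  refine Summable.tsum_le_tsum (fun P => ?_) (hPSU F w B hw s hs) (hPSU F w' B' hw' s hs)
  exact mul_le_mul_of_nonneg_right (h P.1) (Real.rpow_nonneg (Nat.cast_nonneg _) _)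

lemma PR_sum (hPSU : T_PSU) {ι : Type} (S : Finset ι) (w : ι → Ideal (𝓞 F) → ℝ) {B : ℝ}
    (hw : ∀ i, ∀ P, |w i P| ≤ B) {s : ℝ} (hs : 1 < s) :
    PR (fun P => ∑ i ∈ S, w i P) s = ∑ i ∈ S, PR (w i) s := by
  unfold PR
  simp_rw [Finset.sum_mul]
  exact Summable.tsum_finsetSum fun i _ => hPSU F (w i) B (hw i) s hs

lemma PR_smul (c : ℝ) (w : Ideal (𝓞 F) → ℝ) (s : ℝ) :
    PR (fun P => c * w P) s = c * PR w s := by
  unfold PR
  rw [← tsum_mul_left]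
  exact tsum_congr fun P => by ring

lemma normSq_sum {ι : Type} (S : Finset ι) (z : ι → ℂ) :
    ‖∑ i ∈ S, z i‖ ^ 2 = ∑ q ∈ S ×ˢ S, (z q.1 * (starRingEnd ℂ) (z q.2)).re := by
  have h1 : ((‖∑ i ∈ S, z i‖ ^ 2 : ℝ) : ℂ) = (∑ i ∈ S, z i) * (starRingEnd ℂ) (∑ i ∈ S, z i) := by
    rw [Complex.mul_conj, Complex.normSq_eq_norm_sq]
  have h2 : ‖∑ i ∈ S, z i‖ ^ 2 = ((∑ i ∈ S, z i) * (starRingEnd ℂ) (∑ i ∈ S, z i)).re := by
    rw [← h1, Complex.ofReal_re]
  rw [h2, map_sum, Finset.sum_mul_sum, ← Finset.sum_product', Complex.re_sum]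

lemma tendsto_L : Tendsto (fun s : ℝ => Real.log (1 / (s - 1))) (𝓝[>] 1) atTop := by
  refine Real.tendsto_log_atTop.comp ?_
  have h1 : Tendsto (fun s : ℝ => s - 1) (𝓝[>] 1) (𝓝[>] 0) := by
    refine tendsto_nhdsWithin_iff.2 ⟨?_, ?_⟩
    · have h2 : Tendsto (fun s : ℝ => s - 1) (𝓝 1) (𝓝 (1 - 1)) :=
        (continuous_id.sub continuous_const).tendsto 1
      rw [sub_self] at h2
      exact h2.mono_left nhdsWithin_le_nhds
    · filter_upwards [self_mem_nhdsWithin] with s hs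
      have hs' : (1 : ℝ) < s := hs
      exact sub_pos.2 hs'
  exact (tendsto_inv_nhdsGT_zero.comp h1).congr fun s => by simp

end

open scoped Classical in
theorem pf_SEC : T_PCO → T_PSU → T_PRC → T_LGT → T_LGN → T_SPL → T_SEC := by
  intro hPCO hPSU _ hLGT hLGN hSPL F Ω _ _ _ _ _ _ m N hN hUR T hT
  rcases T.eq_empty_or_nonempty with rfl | hne
  · simp
  obtain ⟨ψ₀, hψ₀⟩ := hne
  have hm : m ≠ ⊥ := (hT ψ₀ hψ₀).pc.ne
  set w0 : Ideal (𝓞 F) → ℝ := fun P => if P ⊔ m = ⊤ ∧ ∃ g ∈ N, Fro P g then 1 else 0 with hw0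
  obtain ⟨C3, h3⟩ := hSPL F Ω m N hN hm hUR
  obtain ⟨C1, h1⟩ := hLGT F
  set t : ℝ := (T.card : ℝ) with ht
  set n : ℝ := (N.index : ℝ) with hn
  have hn0 : 0 ≤ n := Nat.cast_nonneg _
  -- the off-diagonal terms
  have hoff : ∀ q : (Ideal (𝓞 F) → ℂ) × (Ideal (𝓞 F) → ℂ), ∃ C : ℝ, q ∈ T ×ˢ T → q.1 ≠ q.2 →
      ∀ᶠ s : ℝ in 𝓝[>] 1, PR (fun P => (q.1 P * (starRingEnd ℂ) (q.2 P)).re) s ≤ C := by
    rintro ⟨ψ, ψ'⟩
    by_cases hq : (ψ, ψ') ∈ T ×ˢ T ∧ ψ ≠ ψ'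
    · obtain ⟨hq1, hq2⟩ := hq
      rw [Finset.mem_product] at hq1
      have e1 : PC m ψ := (hT ψ hq1.1).pc
      have e2 : PC m ψ' := (hT ψ' hq1.2).pc
      have e3 := (hPCO F m ψ e1).1 ψ' e2
      have e4 : ∃ I, ψ I ≠ ψ' I := by
        by_contra h
        push Not at h
        exact hq2 (funext h)
      obtain ⟨I, hI⟩ := e4
      have hI0 : I ≠ ⊥ := by
        rintro rfl
        exact hI (by rw [e1.bot, e2.bot])
      have hI1 : I ⊔ m = ⊤ := by
        by_contra h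
        exact hI (by rw [e1.zero I h, e2.zero I h])
      obtain ⟨C, hC⟩ := hLGN F m _ e3 ⟨I, hI0, hI1, fun h => hI (by
        have h5 : (starRingEnd ℂ) (ψ' I) * ψ' I = 1 := by
          rw [mul_comm, Complex.mul_conj, Complex.normSq_eq_norm_sq, e2.norm I hI0 hI1]
          simp
        calc ψ I = ψ I * ((starRingEnd ℂ) (ψ' I) * ψ' I) := by rw [h5, mul_one]
          _ = (ψ I * (starRingEnd ℂ) (ψ' I)) * ψ' I := by ring
          _ = ψ' I := by rw [h, one_mul])⟩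
      exact ⟨C, fun _ _ => hC⟩
    · exact ⟨0, fun ha hb => absurd ⟨ha, hb⟩ hq⟩
  choose C2 hC2 using hoff
  have hC2' : ∀ᶠ s : ℝ in 𝓝[>] 1, ∀ q ∈ T ×ˢ T, q.1 ≠ q.2 →
      PR (fun P => (q.1 P * (starRingEnd ℂ) (q.2 P)).re) s ≤ C2 q := by
    rw [Filter.eventually_all_finset]
    intro q hq
    by_cases h : q.1 = q.2
    · exact Filter.Eventually.of_forall fun s hs => absurd h hs
    · filter_upwards [hC2 q hq h] with s hs _
      exact hs
  have hle : ∀ ψ ∈ T, ∀ P, ‖ψ P‖ ≤ 1 := fun ψ hψ P => pc_le (hT ψ hψ).pc P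
  -- total weight with bounded extension
  set z : (Ideal (𝓞 F) → ℂ) → Ideal (𝓞 F) → ℂ := fun ψ P => if ψ ∈ T then ψ P else 0 with hz
  have hzle : ∀ ψ P, ‖z ψ P‖ ≤ 1 := by
    intro ψ P
    simp only [hz]
    split_ifs with h
    · exact hle ψ h P
    · simp
  have hzT : ∀ ψ ∈ T, ∀ P, z ψ P = ψ P := by
    intro ψ h P
    simp only [hz, if_pos h]
  have hcross : ∀ (q : (Ideal (𝓞 F) → ℂ) × (Ideal (𝓞 F) → ℂ)) P,
      |(z q.1 P * (starRingEnd ℂ) (z q.2 P)).re| ≤ 1 := by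
    intro q P
    refine (Complex.abs_re_le_norm _).trans ?_
    rw [norm_mul, Complex.norm_conj]
    exact mul_le_one₀ (hzle _ _) (norm_nonneg _) (hzle _ _)
  have hZ : ∀ P, ‖∑ ψ ∈ T, ψ P‖ ^ 2 =
      ∑ q ∈ T ×ˢ T, (z q.1 P * (starRingEnd ℂ) (z q.2 P)).re := by
    intro P
    rw [normSq_sum]
    refine Finset.sum_congr rfl fun q hq => ?_
    rw [Finset.mem_product] at hq
    rw [hzT _ hq.1, hzT _ hq.2]
  have hZB : ∀ P, |‖∑ ψ ∈ T, ψ P‖ ^ 2| ≤ t ^ 2 := by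
    intro P
    rw [abs_of_nonneg (by positivity)]
    refine pow_le_pow_left₀ (norm_nonneg _) ?_ 2
    refine (norm_sum_le _ _).trans ?_
    refine (Finset.sum_le_sum fun ψ hψ => hle ψ hψ P).trans ?_
    simp [ht]
  have hw0B : ∀ P, |t ^ 2 * w0 P| ≤ t ^ 2 := by
    intro P
    simp only [hw0]
    split_ifs
    · rw [mul_one, abs_of_nonneg (by positivity)]
    · rw [mul_zero, abs_zero]
      positivity
  have hlow : ∀ P, t ^ 2 * w0 P ≤ ‖∑ ψ ∈ T, ψ P‖ ^ 2 := by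
    intro P
    by_cases h : P ⊔ m = ⊤ ∧ ∃ g ∈ N, Fro P g
    · obtain ⟨hP, g, hg, hF⟩ := h
      have h5 : ∀ ψ ∈ T, ψ P = 1 := by
        intro ψ hψ
        have h6 := (hT ψ hψ).tr P hP g hF 1 (by rwa [pow_one])
        rwa [pow_one] at h6
      rw [Finset.sum_congr rfl h5]
      have h7 : w0 P = 1 := by
        simp only [hw0]
        rw [if_pos ⟨hP, g, hg, hF⟩]
      rw [h7]
      simp [ht]
    · have h7 : w0 P = 0 := by
        simp only [hw0]
        rw [if_neg h]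
      rw [h7, mul_zero]
      positivity
  have hkey : ∀ᶠ s : ℝ in 𝓝[>] 1, (t ^ 2 - n * t) * Real.log (1 / (s - 1)) ≤
      n * (t * C1 + ∑ q ∈ T ×ˢ T, |C2 q|) + t ^ 2 * C3 := by
    filter_upwards [h1, h3, hC2', self_mem_nhdsWithin] with s e1 e3 e2 hs
    have hs' : (1 : ℝ) < s := hs
    set L := Real.log (1 / (s - 1)) with hL
    have a1 : PR (F := F) (fun _ => 1) s ≤ L + C1 := by
      have := (abs_le.1 e1).2
      linarith
    have a3 : L - C3 ≤ n * PR w0 s := by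
      have := (abs_le.1 e3).1
      linarith
    have a4 : t ^ 2 * PR w0 s ≤ PR (fun P => ‖∑ ψ ∈ T, ψ P‖ ^ 2) s := by
      rw [← PR_smul]
      exact PR_mono hPSU hw0B hZB hlow hs'
    have a5 : PR (fun P => ‖∑ ψ ∈ T, ψ P‖ ^ 2) s =
        ∑ q ∈ T ×ˢ T, PR (fun P => (z q.1 P * (starRingEnd ℂ) (z q.2 P)).re) s := by
      rw [← PR_sum hPSU (T ×ˢ T) (fun q P => (z q.1 P * (starRingEnd ℂ) (z q.2 P)).re) hcross hs']
      congr 1
      funext P
      exact hZ P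
    have a6 : ∀ q ∈ T ×ˢ T, PR (fun P => (z q.1 P * (starRingEnd ℂ) (z q.2 P)).re) s ≤
        (if q.1 = q.2 then L + C1 else 0) + |C2 q| := by
      intro q hq
      have hq' := Finset.mem_product.1 hq
      split_ifs with h
      · have : PR (fun P => (z q.1 P * (starRingEnd ℂ) (z q.2 P)).re) s ≤
            PR (F := F) (fun _ => 1) s := by
          refine PR_mono hPSU (hcross q) (B' := 1) (fun P => by simp) (fun P => ?_) hs'
          exact (le_abs_self _).trans (hcross q P)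
        have h8 := abs_nonneg (C2 q)
        linarith
      · have h7 : (fun P => (z q.1 P * (starRingEnd ℂ) (z q.2 P)).re) =
            fun P => (q.1 P * (starRingEnd ℂ) (q.2 P)).re := by
          funext P
          rw [hzT _ hq'.1, hzT _ hq'.2]
        rw [h7, zero_add]
        exact (e2 q hq h).trans (le_abs_self _)
    have a7 : ∑ q ∈ T ×ˢ T, (if q.1 = q.2 then L + C1 else 0) = t * (L + C1) := by
      rw [Finset.sum_product]
      simp only
      have : ∀ ψ ∈ T, ∑ ψ' ∈ T, (if ψ = ψ' then L + C1 else 0) = L + C1 := by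
        intro ψ hψ
        rw [Finset.sum_ite_eq]
        simp [hψ]
      rw [Finset.sum_congr rfl this, Finset.sum_const, nsmul_eq_mul]
    have a8 : t ^ 2 * PR w0 s ≤ t * (L + C1) + ∑ q ∈ T ×ˢ T, |C2 q| := by
      refine a4.trans ?_
      rw [a5]
      refine (Finset.sum_le_sum a6).trans ?_
      rw [Finset.sum_add_distrib, a7]
    have a9 : t ^ 2 * (L - C3) ≤ n * (t * (L + C1) + ∑ q ∈ T ×ˢ T, |C2 q|) := by
      calc t ^ 2 * (L - C3) ≤ t ^ 2 * (n * PR w0 s) :=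
            mul_le_mul_of_nonneg_left a3 (by positivity)
        _ = n * (t ^ 2 * PR w0 s) := by ring
        _ ≤ _ := mul_le_mul_of_nonneg_left a8 hn0
    nlinarith [a9]
  have hfin : t ^ 2 - n * t ≤ 0 := by
    by_contra hpos
    push Not at hpos
    have h9 := (tendsto_L.const_mul_atTop hpos).eventually_gt_atTop
      (n * (t * C1 + ∑ q ∈ T ×ˢ T, |C2 q|) + t ^ 2 * C3)
    obtain ⟨s, hs1, hs2⟩ := (hkey.and h9).exists
    exact absurd hs1 (not_le.2 hs2)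
  have ht1 : (0 : ℝ) < t := by
    rw [ht]
    exact_mod_cast Finset.card_pos.2 ⟨ψ₀, hψ₀⟩
  have h10 : t ≤ n := by nlinarith
  rw [ht, hn] at h10
  exact_mod_cast h10

end Pool.Agent.H13.RC
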